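import Pool.Agent.H30.StA

set_option autoImplicit false

namespace Pool.Agent.Results.MP_941e3e_gt.Friedman

open Pool.Agent.H30.Sta Cardinal

/-- If some regular uncountable cardinal has Friedman's property, there is a scattered countably
compact Tychonoff (even hereditarily normal) space that is not Stäckel-compact. -/
theorem result (κ : Cardinal.{0}) (hκ : κ.IsRegular) (h0 : ℵ₀ < κ) (h : Friedman κ) :
    ∃ (X : Type) (_ : TopologicalSpace X), T35Space X ∧ T5Space X ∧ CountablyCompactSpace X ∧
      (∀ S : Set X, S.Nonempty → ∃ x ∈ S, ∃ U, IsOpen U ∧ U ∩ S = {x}) ∧ ¬ Stackel X := by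
  obtain ⟨h1, h2, h3⟩ := reg_facts hκ h0
  let _ : TopologicalSpace κ.ord.ToType := Preorder.topology _
  have : OrderTopology κ.ord.ToType := ⟨rfl⟩
  exact ⟨Sp κ.ord.ToType, inferInstance, inferInstance, inferInstance, cc h1, scat h1,
    not_stackel h1 h2 h⟩

end Pool.Agent.Results.MP_941e3e_gt.Friedman
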